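import Pool.Agent.N864.GT.R6
import Pool.Agent.TH214.RM.Fin

/-!
MP_602153_ag: regular projective flat models over the integers, in every dimension, of the varieties
`V` over a number field `E` which are quotients of the generic fibre of a projective scheme `X` over
`𝓞 E` by a finite group `G` which acts on `X`, freely on the generic fibre, with inertia groups which
are tame and cyclic, or wild of prime order. The scheme `X` is regular at the points with tame or
trivial inertia; it can be singular at the points with wild inertia, where the blowing up of the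
ideal of the fixed points is regular.

The variety `V` over `E` is given by its homogeneous coordinate ring and by homogeneous coordinates
`x` in its function field `F`. The function field of `X` is the finite Galois extension `K` of `F`,
with the Galois group `G`. The scheme `X` is given by homogeneous coordinates `H j` in `K`: its
charts are the spectra of the rings `(𝓞 E)[H 0 / H j, ..., H N / H j] ⊆ K`. The group `G` acts
linearly. The local rings of `X` are considered as subrings of `K`.
-/

set_option autoImplicit false

open AlgebraicGeometry CategoryTheory CategoryTheory.Limits MvPolynomial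

open scoped NumberField Pointwise

namespace Pool.Agent.Results.MP_602153_ag.FiniteGroupQuotients

/-- The ring `O[H 0 / H j, ..., H N / H j]` of the chart `H j ≠ 0`. -/
def chartRing (O : Type) {K : Type} [CommRing O] [Field K] [Algebra O K] {N : ℕ}
    (H : Fin (N + 1) → K) (j : Fin (N + 1)) : Subring K :=
  (Algebra.adjoin O (Set.range fun l => H l / H j)).toSubring

section local_rings

variable {F K : Type} [Field F] [Field K] [Algebra F K]

/-- The local ring at the prime `𝔮` of the subring `A` of the field `K`, as a subring of `K`. -/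
noncomputable def localRing (A : Subring K) (𝔮 : Ideal A) [𝔮.IsPrime] : Subring K :=
  (LocalSubring.ofPrime A 𝔮).toSubring

/-- The automorphism `σ` is in the inertia group of the point with the local ring `R`: the ring `R`
is stable under `σ`, which acts trivially on its residue field. -/
def IsFixed (σ : K ≃ₐ[F] K) (R : Subring K) : Prop :=
  ∀ x : R, ∃ y : R, (y : K) = σ x ∧ ¬ IsUnit (y - x)

/-- The ideal of the fixed scheme of `σ` in `R`, generated by the elements `σ x - x`. -/
def fixedIdeal (σ : K ≃ₐ[F] K) (R : Subring K) : Ideal R :=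
  Ideal.span {y : R | ∃ x : R, (y : K) = σ x - x}

/-- `σ` acts by a scalar `u` on the ideal of its fixed scheme modulo the square of this ideal. -/
def ActsByScalar (σ : K ≃ₐ[F] K) (R : Subring K) : Prop :=
  ∃ u : R, ∀ y ∈ fixedIdeal σ R, ∀ y' : R, (y' : K) = σ y → y' - u * y ∈ fixedIdeal σ R ^ 2

/-- The ring `R[I / y]` of an affine chart of the blowing up of the ideal `I` of the fixed
scheme. -/
def chart (σ : K ≃ₐ[F] K) (R : Subring K) (y : R) : Subring K :=
  Subring.closure ((R : Set K) ∪ {x | ∃ b ∈ fixedIdeal σ R, x = (b : K) / y})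

/-- The conditions on the generator `σ`, of prime order `p`, of the inertia group of the point with
the local ring `R`, if `p` is not invertible in `R` (wild inertia). Either the blowing up of the
ideal of the fixed scheme of `σ` in `R` is regular, and `p = 2` or `σ` acts by a scalar on the
conormal module of its fixed scheme. Or `R` is regular and `σ = 1 + t δ` on `R`, where the ideal
generated by the image of `δ` is the unit ideal, or it has a regular quotient and `p = 2` or `σ`
acts by a scalar on the conormal module of its fixed scheme. -/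
def WildCondition (p : ℕ) (σ : K ≃ₐ[F] K) (R : Subring K) : Prop :=
  ((∀ y ∈ fixedIdeal σ R, y ≠ 0 → IsRegularRing (chart σ R y)) ∧ (p = 2 ∨ ActsByScalar σ R)) ∨
    (IsRegularLocalRing R ∧ ∃ (t : R) (δ : R → R), t ≠ 0 ∧ (∀ x : R, σ x = x + t * δ x) ∧
      (Ideal.span (Set.range δ) = ⊤ ∨
        (IsRegularLocalRing (R ⧸ Ideal.span (Set.range δ)) ∧ (p = 2 ∨ ActsByScalar σ R))))

/-- The local ring `R` is regular and its inertia group is trivial; or the point is not on the
generic fibre (an element `s ≠ 0` of `O` is not invertible in `R`), and its inertia group is cyclic,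
generated by an element `τ`: either `R` is regular and the order of `τ` is invertible in `R` (tame
inertia), or the order of `τ` is a prime number which is not invertible in `R`, with the conditions
above. -/
def InertiaCondition (O F : Type) {K : Type} [CommRing O] [Field F] [Field K] [Algebra F K]
    [Algebra O K] (R : Subring K) : Prop :=
  (IsRegularLocalRing R ∧ ∀ σ : K ≃ₐ[F] K, IsFixed σ R → σ = 1) ∨
    ((∃ s : O, s ≠ 0 ∧ ∃ y : R, (y : K) = algebraMap O K s ∧ ¬ IsUnit y) ∧
      ∃ τ : K ≃ₐ[F] K, (∀ σ, IsFixed σ R ↔ σ ∈ Subgroup.zpowers τ) ∧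
        ((IsRegularLocalRing R ∧ IsUnit ((orderOf τ : ℕ) : R)) ∨
          ((orderOf τ).Prime ∧ ¬ IsUnit ((orderOf τ : ℕ) : R) ∧ WildCondition (orderOf τ) τ R)))

end local_rings

/-- `x` are homogeneous coordinates in the field `F` of the variety with the homogeneous coordinate
ring `B` over `E`: a form vanishes in `B` if and only if it vanishes at `x`. -/
def IsCoordinates {E F B : Type} [Field E] [Field F] [Algebra E F] [CommRing B] [Algebra E B]
    {n : ℕ} (π : MvPolynomial (Fin (n + 1)) E →ₐ[E] B) (x : Fin (n + 1) → F) : Prop :=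
  ∀ d, ∀ P : MvPolynomial (Fin (n + 1)) E, P.IsHomogeneous d → (π P = 0 ↔ aeval x P = 0)

/-- The variety with the homogeneous coordinates `x` is the quotient of the variety with the
homogeneous coordinates `H` by the Galois group of `K` over `F`: for some `c ≥ 1` and all large
`k`, the invariant forms of degree `c k` in `H` are the forms of degree `k` in `x`. -/
def IsQuotient (E : Type) {F K : Type} [Field E] [Field F] [Field K] [Algebra E F] [Algebra F K]
    [Algebra E K] {n N : ℕ} (x : Fin (n + 1) → F) (H : Fin (N + 1) → K) : Prop :=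
  ∃ c k₀ : ℕ, 1 ≤ c ∧ ∀ k, k₀ ≤ k → ∀ f : F,
    algebraMap F K f ∈ Submodule.span E (Set.range H ^ (c * k)) ↔
      f ∈ Submodule.span E (Set.range x ^ k)

/-- The dimensions of the local rings of `A` equal the dimensions of their cotangent spaces. -/
def HasRegularLocalRings (A : Type) [CommRing A] : Prop :=
  ∀ p : PrimeSpectrum A, ringKrullDim (Localization.AtPrime p.asIdeal) =
    (((Module.finrank (IsLocalRing.ResidueField (Localization.AtPrime p.asIdeal))
      (IsLocalRing.CotangentSpace (Localization.AtPrime p.asIdeal)) : ℕ) : ℕ∞) : WithBot ℕ∞)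

/-- The local rings of the locally Noetherian scheme `Y` are regular. -/
def IsRegularScheme (Y : Scheme.{0}) : Prop :=
  IsLocallyNoetherian Y ∧
  ∀ U : Y.affineOpens, HasRegularLocalRings (Y.presheaf.obj (Opposite.op U.1))

/-- `Y` is projective over the integers. -/
def IsProjectiveOverInt (Y : Scheme.{0}) : Prop :=
  ∃ (A : Type) (_ : CommRing A) (𝒜 : ℕ → Submodule ℤ A) (_ : GradedAlgebra 𝒜),
    (∀ a ∈ 𝒜 0, ∃ n : ℤ, (n : A) = a) ∧
    (∃ s : Finset A, (∀ a ∈ s, a ∈ 𝒜 1) ∧ Algebra.adjoin ℤ (s : Set A) = ⊤) ∧
    Nonempty (Y ≅ Proj 𝒜)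

/-- The generic fibre of `Y` is isomorphic to `V`. -/
def HasGenericFibre (Y V : Scheme.{0}) : Prop :=
  Nonempty (pullback (specZIsTerminal.from Y)
      (specZIsTerminal.from (Spec (CommRingCat.of ℚ))) ≅ V)

/-- `Y` is an integral regular locally Noetherian scheme, projective and flat over the integers,
with generic fibre `V`. -/
def IsRegularProjectiveFlatModel (V Y : Scheme.{0}) : Prop :=
  IsIntegral Y ∧ IsRegularScheme Y ∧ IsProjectiveOverInt Y ∧ Flat (specZIsTerminal.from Y) ∧
    HasGenericFibre Y V

theorem result :
    ∀ (E : Type) [Field E] [NumberField E]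
      -- the variety `V`
      (n : ℕ) (B : Type) [CommRing B] [Algebra E B] (π : MvPolynomial (Fin (n + 1)) E →ₐ[E] B),
      Function.Surjective π →
      ∀ (ℬ : ℕ → Submodule E B) [GradedAlgebra ℬ],
      (∀ d, ℬ d = (homogeneousSubmodule (Fin (n + 1)) E d).map π.toLinearMap) →
      ∀ (F : Type) [Field F] [Algebra E F] (x : Fin (n + 1) → F), IsCoordinates π x →
      -- the Galois extension of its function field
      ∀ (K : Type) [Field K] [Algebra F K] [FiniteDimensional F K] [IsGalois F K] [Algebra E K]
      [IsScalarTower E F K] [Algebra (𝓞 E) K] [IsScalarTower (𝓞 E) E K]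
      -- the projective scheme `X` over `𝓞 E` with the function field `K`
      (N : ℕ) (H : Fin (N + 1) → K), (∀ j, H j ≠ 0) →
      IntermediateField.adjoin E (Set.range fun j => H j / H 0) = ⊤ →
      -- the Galois group acts linearly on `X`, and `V` is the quotient of the generic fibre
      (∀ (σ : K ≃ₐ[F] K) j, σ (H j) ∈ Submodule.span (𝓞 E) (Set.range H)) →
      IsQuotient E x H →
      -- the local rings and the inertia groups
      (∀ j (𝔮 : Ideal (chartRing (𝓞 E) H j)) [𝔮.IsPrime],
        InertiaCondition (𝓞 E) F (localRing (chartRing (𝓞 E) H j) 𝔮)) →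
      -- every scheme isomorphic to `Proj ℬ` has a regular projective flat model over the integers
      ∀ (V : Scheme.{0}), Nonempty (V ≅ Proj ℬ) → ∃ Y, IsRegularProjectiveFlatModel V Y := by
  intro E _ _ n B _ _ π hπ ℬ _ hℬ F _ _ x hx K _ _ _ _ _ _ _ _ N H hH hgen hlin
    ⟨c, k₀, hc, hq⟩ hpt V hV
  let _ : Algebra (𝓞 E) F := ((algebraMap E F).comp (algebraMap (𝓞 E) E)).toAlgebra
  have hst : IsScalarTower (𝓞 E) E F := IsScalarTower.of_algebraMap_eq fun _ => rfl
  have hM := Pool.Agent.N864.GTN.gq_good6 x H hH hgen hlin (Pool.Agent.N864.GQ.RSF E F K)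
    (fun _ _ => rfl) (fun j 𝔮 h𝔮 => @hpt j 𝔮 h𝔮) c k₀ hc hq
  obtain ⟨ε, hε, hεgen, hε1⟩ := Pool.Agent.Y223.INV.exists_eps2 x π hπ ℬ hℬ
    (fun d P hP => hx d P hP)
  obtain ⟨Y, h1, h2, h3, h4, h5, h6⟩ := Pool.Agent.TH214.RM.hasRegularModel_of_goodModule
    (O := 𝓞 E) ℬ ε hε hεgen x hε1 hM V hV
  exact ⟨Y, h1, ⟨h2, h3⟩, h4, h5, h6⟩

end Pool.Agent.Results.MP_602153_ag.FiniteGroupQuotients
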