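import Pool.Agent.U426.PA.G
import Pool.Agent.W418.Gen4

/-!
MP_602153_ag: projective flat models over the integers which are regular at the centres of finitely
many points with values in arbitrary discretely valued fields of mixed characteristic.

Let `X` be an integral projective scheme over `ℚ` with regular local rings (for example, smooth) of
any dimension, and let `ψ i`, for `i < n`, be points of `X` with values in fields `L i` of
characteristic zero, with discrete valuation rings `V i` of positive residue characteristics. The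
fields `L i`, the residue fields of `V i` and the ramification indices are arbitrary, and the
images of the `ψ i` are arbitrary points of `X`. There is an integral projective flat model `Y` of
`X` over `ℤ` such that all `ψ i` extend to points of `Y` with values in `V i`, and `Y` is regular at
the images of the closed points.
-/

set_option autoImplicit false

open AlgebraicGeometry CategoryTheory CategoryTheory.Limits

namespace Pool.Agent.Results.MP_602153_ag.FiniteTraits

theorem result :
    ∀ (X : Scheme.{0}), IsIntegral X →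
      (∃ (A : Type) (_ : CommRing A) (_ : Algebra ℚ A) (𝒜 : ℕ → Submodule ℚ A)
          (_ : GradedAlgebra 𝒜),
          (∀ a ∈ 𝒜 0, ∃ q : ℚ, algebraMap ℚ A q = a) ∧
          (∃ s : Finset A, (∀ a ∈ s, a ∈ 𝒜 1) ∧ Algebra.adjoin ℚ (s : Set A) = ⊤) ∧
          Nonempty (X ≅ Proj 𝒜)) →
      (∀ x : X, IsRegularLocalRing (X.presheaf.stalk x)) →
      ∀ (n : ℕ) (L : Fin n → Type) [∀ i, Field (L i)] [∀ i, CharZero (L i)]
        (V : ∀ i, ValuationSubring (L i)) [∀ i, IsDiscreteValuationRing (V i)]
        (p : Fin n → ℕ), (∀ i, (p i).Prime) → (∀ i, ¬ IsUnit (p i : V i)) →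
      ∀ ψ : ∀ i, Spec (CommRingCat.of (L i)) ⟶ X,
      ∃ (Y : Scheme.{0})
        (e : pullback (specZIsTerminal.from Y)
          (specZIsTerminal.from (Spec (CommRingCat.of ℚ))) ≅ X),
        IsIntegral Y ∧
        IsLocallyNoetherian Y ∧
        (∃ (A : Type) (_ : CommRing A) (𝒜 : ℕ → Submodule ℤ A) (_ : GradedAlgebra 𝒜),
          (∀ a ∈ 𝒜 0, ∃ n : ℤ, (n : A) = a) ∧
          (∃ s : Finset A, (∀ a ∈ s, a ∈ 𝒜 1) ∧ Algebra.adjoin ℤ (s : Set A) = ⊤) ∧
          Nonempty (Y ≅ Proj 𝒜)) ∧
        Flat (specZIsTerminal.from Y) ∧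
        ∀ i, ∃ ψ' : Spec (CommRingCat.of (V i)) ⟶ Y,
          Spec.map (CommRingCat.ofHom (V i).subtype) ≫ ψ' = ψ i ≫ e.inv ≫ pullback.fst _ _ ∧
          IsRegularLocalRing (Y.presheaf.stalk (ψ' (IsLocalRing.closedPoint (V i)))) := by
  intro X hX hproj hreg n L _ _ V hV p hp hpu ψ
  obtain ⟨A, _, _, 𝒜, _, h0, ⟨s, hs, hgen⟩, ⟨i⟩⟩ := hproj
  obtain ⟨F, _, _, iZ, _, M, g, hg, hg0, e, hM, he, hall⟩ :=
    Pool.Agent.U426.PA.proj_f (O := ℤ)
      (fun o => isIntegral_algebraMap (R := ℤ) (A := ℤ) (x := o)) _ hreg 𝒜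
      h0 s hs hgen i rfl L V hV (fun i => ⟨p i, (hp i).ne_zero,
        (Pool.Agent.U426.PA.nat_lt_iff (V i) (p i)).2 ((IsLocalRing.mem_maximalIdeal _).2 (hpu i))⟩)
      ψ
  obtain rfl : iZ = Ring.toIntAlgebra F := Subsingleton.elim _ _
  have hF : CharZero F := charZero_of_injective_ringHom (algebraMap ℚ F).injective
  have key : ∀ (q : Pool.Agent.H968R2.Quad.model M ⟶ Spec (CommRingCat.of ℤ))
      (r : Spec (CommRingCat.of ℚ) ⟶ Spec (CommRingCat.of ℤ)),
      ∃ (e : pullback q r ≅ X),
        ∀ i, ∃ ψ' : Spec (CommRingCat.of (V i)) ⟶ Pool.Agent.H968R2.Quad.model M,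
          Spec.map (CommRingCat.ofHom (V i).subtype) ≫ ψ' = ψ i ≫ e.inv ≫ pullback.fst _ _ ∧
          IsRegularLocalRing ((Pool.Agent.H968R2.Quad.model M).presheaf.stalk
            (ψ' (IsLocalRing.closedPoint (V i)))) := by
    intro q r
    obtain rfl : q = Pool.Agent.H968R2.Quad.modelMap M := specZIsTerminal.hom_ext _ _
    obtain rfl : r = Spec.map (CommRingCat.ofHom (algebraMap ℤ ℚ)) := specZIsTerminal.hom_ext _ _
    exact ⟨e, hall⟩
  obtain ⟨e', h1⟩ := key (specZIsTerminal.from _) (specZIsTerminal.from _)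
  exact ⟨Pool.Agent.H968R2.Quad.model M, e',
    Pool.Agent.H968R2.Quad.model_integral M g hg hg0, Pool.Agent.W418.model_noeth M hM,
    Pool.Agent.W418.model_projective M hM, Pool.Agent.W418.model_flat M, h1⟩

end Pool.Agent.Results.MP_602153_ag.FiniteTraits
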