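import Pool.Agent.U426.PA.C
import Pool.Agent.W418.Gen4

/-!
MP_602153_ag: projective flat models over the integers which are regular at the centres of all the
points with values in local fields of bounded degree, for all the primes at once.

Let `X` be an integral projective scheme over `ℚ` with regular local rings (for example, smooth),
and `C` a function on the primes. There is an integral projective flat model `Y` of `X` over `ℤ`
such that the following holds for every prime `p` and every discrete valuation ring `V` of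
characteristic zero, in which `p` is not invertible and such that `V / pV` has at most `C p`
elements: every point of `X` with values in the fraction field `L` of `V` extends to a point of `Y`
with values in `V`, and `Y` is regular at the image of the closed point.

If `V` is the valuation ring of a finite extension `L` of `ℚ_p`, then `V / pV` has `p ^ [L : ℚ_p]`
elements. So (with `C p = p ^ d`) one model `Y` is regular at the centres of all the points of `X`
with values in the extensions of degree at most `d` of all the fields `ℚ_p`.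
-/

set_option autoImplicit false

open AlgebraicGeometry CategoryTheory CategoryTheory.Limits

namespace Pool.Agent.Results.MP_602153_ag.LocalPoints

theorem result :
    ∀ (X : Scheme.{0}), IsIntegral X →
      (∃ (A : Type) (_ : CommRing A) (_ : Algebra ℚ A) (𝒜 : ℕ → Submodule ℚ A)
          (_ : GradedAlgebra 𝒜),
          (∀ a ∈ 𝒜 0, ∃ q : ℚ, algebraMap ℚ A q = a) ∧
          (∃ s : Finset A, (∀ a ∈ s, a ∈ 𝒜 1) ∧ Algebra.adjoin ℚ (s : Set A) = ⊤) ∧
          Nonempty (X ≅ Proj 𝒜)) →
      (∀ x : X, IsRegularLocalRing (X.presheaf.stalk x)) →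
      ∀ C : ℕ → ℕ,
      ∃ (Y : Scheme.{0})
        (e : pullback (specZIsTerminal.from Y)
          (specZIsTerminal.from (Spec (CommRingCat.of ℚ))) ≅ X),
        IsIntegral Y ∧
        IsLocallyNoetherian Y ∧
        (∃ (A : Type) (_ : CommRing A) (𝒜 : ℕ → Submodule ℤ A) (_ : GradedAlgebra 𝒜),
          (∀ a ∈ 𝒜 0, ∃ n : ℤ, (n : A) = a) ∧
          (∃ s : Finset A, (∀ a ∈ s, a ∈ 𝒜 1) ∧ Algebra.adjoin ℤ (s : Set A) = ⊤) ∧
          Nonempty (Y ≅ Proj 𝒜)) ∧
        Flat (specZIsTerminal.from Y) ∧
        ∀ (L : Type) [Field L] [CharZero L] (V : ValuationSubring L) [IsDiscreteValuationRing V]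
          (p : ℕ), p.Prime → ¬ IsUnit (p : V) → Finite (V ⧸ Ideal.span {(p : V)}) →
          Nat.card (V ⧸ Ideal.span {(p : V)}) ≤ C p →
          ∀ ψ : Spec (CommRingCat.of L) ⟶ X, ∃ ψ' : Spec (CommRingCat.of V) ⟶ Y,
            Spec.map (CommRingCat.ofHom V.subtype) ≫ ψ' = ψ ≫ e.inv ≫ pullback.fst _ _ ∧
            IsRegularLocalRing (Y.presheaf.stalk (ψ' (IsLocalRing.closedPoint V))) := by
  intro X hX hproj hreg C
  obtain ⟨A, _, _, 𝒜, _, h0, ⟨s, hs, hgen⟩, ⟨i⟩⟩ := hproj
  obtain ⟨F, _, _, iZ, _, M, g, hg, hg0, e, hM, he, hall, -⟩ :=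
    Pool.Agent.U426.PA.proj_b (O := ℤ)
      (fun o => isIntegral_algebraMap (R := ℤ) (A := ℤ) (x := o)) _ hreg 𝒜
      h0 s hs hgen i rfl (Pool.Agent.U426.PA.bnd C)
  obtain rfl : iZ = Ring.toIntAlgebra F := Subsingleton.elim _ _
  have hF : CharZero F := charZero_of_injective_ringHom (algebraMap ℚ F).injective
  have key : ∀ (q : Pool.Agent.H968R2.Quad.model M ⟶ Spec (CommRingCat.of ℤ))
      (r : Spec (CommRingCat.of ℚ) ⟶ Spec (CommRingCat.of ℤ)),
      ∃ (e : pullback q r ≅ X),
        ∀ (L : Type) [Field L] [CharZero L] (V : ValuationSubring L) [IsDiscreteValuationRing V]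
          (p : ℕ), p.Prime → ¬ IsUnit (p : V) → Finite (V ⧸ Ideal.span {(p : V)}) →
          Nat.card (V ⧸ Ideal.span {(p : V)}) ≤ C p →
          ∀ ψ : Spec (CommRingCat.of L) ⟶ X, ∃ ψ' : Spec (CommRingCat.of V) ⟶
            Pool.Agent.H968R2.Quad.model M,
            Spec.map (CommRingCat.ofHom V.subtype) ≫ ψ' = ψ ≫ e.inv ≫ pullback.fst _ _ ∧
            IsRegularLocalRing ((Pool.Agent.H968R2.Quad.model M).presheaf.stalk
              (ψ' (IsLocalRing.closedPoint V))) := by
    intro q r
    obtain rfl : q = Pool.Agent.H968R2.Quad.modelMap M := specZIsTerminal.hom_ext _ _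
    obtain rfl : r = Spec.map (CommRingCat.ofHom (algebraMap ℤ ℚ)) := specZIsTerminal.hom_ext _ _
    refine ⟨e, fun L _ _ V _ p hp hpu hfin hcard ψ => ?_⟩
    exact hall L V (Pool.Agent.U426.PA.bd_of_card V C hp hpu hfin hcard) ψ
  obtain ⟨e', h1⟩ := key (specZIsTerminal.from _) (specZIsTerminal.from _)
  exact ⟨Pool.Agent.H968R2.Quad.model M, e',
    Pool.Agent.H968R2.Quad.model_integral M g hg hg0, Pool.Agent.W418.model_noeth M hM,
    Pool.Agent.W418.model_projective M hM, Pool.Agent.W418.model_flat M, h1⟩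

end Pool.Agent.Results.MP_602153_ag.LocalPoints
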