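import Pool.Agent.U41.PH.Fin

/-!
MP_602153_ag: a positive proportion of all hypersurfaces over the rational numbers, of every degree
`d ≥ 3` and every dimension, has regular models which are projective and flat over the integers.

1. Among the forms of degree `d` with integral coefficients of absolute value at most `H` at least
   the proportion `δ > 0` defines a smooth hypersurface with a regular projective flat model over
   the integers, for all large `H`.
2. For every `ε > 0` there is `Y₀` such that for `Y ≥ Y₀` the following holds in every residue class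
   modulo `M`, if the prime divisors of `M` are at most `Y`. If the members of the class have at
   every prime `p ≤ Y` an integral equation which is regular over `p`, or regular outside one
   rational point where it has an ordinary double point (of any depth), then at least the proportion
   `1 - ε` of them defines a smooth hypersurface with such a model. There is no condition on the
   discriminant at the primes `p > Y`.
-/

set_option autoImplicit false

open AlgebraicGeometry CategoryTheory CategoryTheory.Limits MvPolynomial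

open scoped NumberField

namespace Pool.Agent.Results.MP_602153_ag.PositiveProportion

/-- The polynomial in the variables `X j`, `j ≠ s`, obtained from `H` by setting `X s = 1`: the
equation of the hypersurface `H = 0` in the chart `X s ≠ 0` of the projective space over `R`. -/
noncomputable def dehom {R : Type} [CommRing R] {m : ℕ} (s : Fin m) (H : MvPolynomial (Fin m) R) :
    MvPolynomial {j : Fin m // j ≠ s} R :=
  aeval (fun j => if h : j = s then 1 else X ⟨j, h⟩) H

/-- The ideal `Q` of the polynomial ring over `R` lies over `𝔭`. -/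
def LiesAbove {R σ : Type} [CommRing R] (𝔭 : Ideal R) (Q : Ideal (MvPolynomial σ R)) : Prop :=
  ∀ r : R, C r ∈ Q ↔ r ∈ 𝔭

/-- For a prime `Q` of `A`, the element `f` is not in the square of the maximal ideal of the
localization of `A` at `Q`. -/
def NotInSquare {A : Type} [CommRing A] (Q : Ideal A) (f : A) : Prop :=
  ∀ h, h ∉ Q → h * f ∉ Q ^ 2

/-- The scheme `H = 0` in the projective space over `R` is regular at its points over `𝔭` in the
chart `X s ≠ 0`: for every prime `Q` of the polynomial ring of the chart lying over `𝔭` and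
containing the equation, the equation is not in the square of the maximal ideal of the localization
at `Q`. -/
def IsRegularInChart {R : Type} [CommRing R] (𝔭 : Ideal R) {m : ℕ} (H : MvPolynomial (Fin m) R)
    (s : Fin m) : Prop :=
  ∀ Q : Ideal (MvPolynomial {j : Fin m // j ≠ s} R), Q.IsPrime →
    LiesAbove 𝔭 Q → dehom s H ∈ Q → NotInSquare Q (dehom s H)

/-- The scheme `H = 0` in the projective space over `R` is regular at its points over `𝔭`. -/
def IsRegularAt {R : Type} [CommRing R] (𝔭 : Ideal R) {m : ℕ} (H : MvPolynomial (Fin m) R) :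
    Prop :=
  ∀ s : Fin m, IsRegularInChart 𝔭 H s

/-- The scheme `H = 0` in the projective space over `R`, with coordinates `X 0, ..., X m`, is
regular at its points over `𝔭` outside the point `(1 : 0 : ... : 0)`, where it has an ordinary
double point: `2` is not in `𝔭`, and for the polynomial `f` obtained from `H` by setting `X 0 = 1`
there is `k ≥ 2` such that the constant coefficient of `f` is in `𝔭 ^ k` but not in `𝔭 ^ (k + 1)`,
the linear coefficients are in `𝔭 ^ k`, and the quadratic part of `f` is nondegenerate modulo `𝔭`: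
every variable, multiplied by a constant outside of `𝔭`, is in the ideal generated by the partial
derivatives of the quadratic part. -/
structure HasDoublePointAt {R : Type} [CommRing R] (𝔭 : Ideal R) {m : ℕ}
    (H : MvPolynomial (Fin (m + 1)) R) : Prop where
  two : (2 : R) ∉ 𝔭
  depth : ∃ k, 2 ≤ k ∧ constantCoeff (dehom 0 H) ∈ 𝔭 ^ k ∧
    constantCoeff (dehom 0 H) ∉ 𝔭 ^ (k + 1) ∧
    ∀ l, coeff (Finsupp.single l 1) (dehom 0 H) ∈ 𝔭 ^ k
  nondegenerate : ∀ l, ∃ δ : R, δ ∉ 𝔭 ∧ C δ * X l ∈
    Ideal.span (Set.range fun j => pderiv j (homogeneousComponent 2 (dehom 0 H)))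
  regular : ∀ s, s ≠ 0 → IsRegularInChart 𝔭 H s

/-- The partial derivatives of `G` have no common zero (over an algebraic closure) but the origin:
every variable has a power in the ideal they generate. -/
def IsSmooth {K : Type} [Field K] {m : ℕ} (G : MvPolynomial (Fin m) K) : Prop :=
  ∀ i, X i ∈ (Ideal.span (Set.range fun j => pderiv j G)).radical

/-- `H` is obtained from `G` by the linear change of coordinates `T` and multiplication with the
scalar `l`. -/
def IsEquation {R K : Type} [CommRing R] [Field K] [Algebra R K] {m : ℕ}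
    (G : MvPolynomial (Fin m) K) (H : MvPolynomial (Fin m) R) (l : K)
    (T : Matrix (Fin m) (Fin m) K) : Prop :=
  map (algebraMap R K) H = C l * aeval (fun i => ∑ j, C (T i j) * X j) G

/-- A linear change of coordinates over the rational numbers and a scalar turn `G` into a form with
integral coefficients whose hypersurface is regular at its points over `p`, or is regular there
outside the point `(1 : 0 : ... : 0)`, where it has an ordinary double point. -/
def HasGoodEquationAt (p : ℕ) {m : ℕ} (G : MvPolynomial (Fin (m + 1)) ℚ) : Prop :=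
  ∃ (H : MvPolynomial (Fin (m + 1)) ℤ) (l : ℚ) (T T' : Matrix (Fin (m + 1)) (Fin (m + 1)) ℚ),
    l ≠ 0 ∧ T * T' = 1 ∧ IsEquation G H l T ∧
      (IsRegularAt (Ideal.span {(p : ℤ)}) H ∨ HasDoublePointAt (Ideal.span {(p : ℤ)}) H)

/-- The exponents of the monomials of degree `d` in `m` variables. -/
abbrev Exponent (m d : ℕ) : Type := {α : Fin m →₀ ℕ // α.degree = d}

/-- The form of degree `d` over the rational numbers with the integral coefficients `a`. -/
noncomputable def form {m d : ℕ} (a : Exponent m d → ℤ) : MvPolynomial (Fin m) ℚ :=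
  map (algebraMap ℤ ℚ) (∑ᶠ α : Exponent m d, monomial α.1 (a α))

/-- The dimensions of the local rings of `A` equal the dimensions of their cotangent spaces. -/
def HasRegularLocalRings (A : Type) [CommRing A] : Prop :=
  ∀ p : PrimeSpectrum A, ringKrullDim (Localization.AtPrime p.asIdeal) =
    (((Module.finrank (IsLocalRing.ResidueField (Localization.AtPrime p.asIdeal))
      (IsLocalRing.CotangentSpace (Localization.AtPrime p.asIdeal)) : ℕ) : ℕ∞) : WithBot ℕ∞)

/-- The local rings of the locally Noetherian scheme `Y` are regular. -/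
def IsRegularScheme (Y : Scheme.{0}) : Prop :=
  IsLocallyNoetherian Y ∧
  ∀ U : Y.affineOpens, HasRegularLocalRings (Y.presheaf.obj (Opposite.op U.1))

/-- `Y` is projective over the integers. -/
def IsProjectiveOverInt (Y : Scheme.{0}) : Prop :=
  ∃ (A : Type) (_ : CommRing A) (𝒜 : ℕ → Submodule ℤ A) (_ : GradedAlgebra 𝒜),
    (∀ a ∈ 𝒜 0, ∃ n : ℤ, (n : A) = a) ∧
    (∃ s : Finset A, (∀ a ∈ s, a ∈ 𝒜 1) ∧ Algebra.adjoin ℤ (s : Set A) = ⊤) ∧
    Nonempty (Y ≅ Proj 𝒜)

/-- The generic fibre of `Y` is isomorphic to `V`. -/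
def HasGenericFibre (Y V : Scheme.{0}) : Prop :=
  Nonempty (pullback (specZIsTerminal.from Y)
      (specZIsTerminal.from (Spec (CommRingCat.of ℚ))) ≅ V)

/-- `Y` is an integral regular locally Noetherian scheme, projective and flat over the integers,
with generic fibre `V`. -/
def IsRegularProjectiveFlatModel (V Y : Scheme.{0}) : Prop :=
  IsIntegral Y ∧ IsRegularScheme Y ∧ IsProjectiveOverInt Y ∧ Flat (specZIsTerminal.from Y) ∧
    HasGenericFibre Y V

/-- Every scheme `V` isomorphic to the hypersurface `Proj (ℚ[X] / (G))` has a regular projective flat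
model over the integers. -/
def HypersurfaceHasModel {m : ℕ} (G : MvPolynomial (Fin m) ℚ) : Prop :=
  ∀ (B : Type) [CommRing B] [Algebra ℚ B]
    (π : MvPolynomial (Fin m) ℚ →ₐ[ℚ] B), Function.Surjective π →
    RingHom.ker π = Ideal.span {G} →
  ∀ (ℬ : ℕ → Submodule ℚ B) [GradedAlgebra ℬ],
    (∀ d, ℬ d = (homogeneousSubmodule (Fin m) ℚ d).map π.toLinearMap) →
  ∀ (V : Scheme.{0}), Nonempty (V ≅ Proj ℬ) → ∃ Y, IsRegularProjectiveFlatModel V Y

theorem HasGoodEquationAt.locAt {p m : ℕ} {G : MvPolynomial (Fin (m + 2)) ℚ}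
    (h : HasGoodEquationAt p G) : Pool.Agent.U41.OD.LocAt (Ideal.span {(p : ℤ)}) G := by
  obtain ⟨H, l, T, T', hl, hT, hH, hreg⟩ := h
  refine ⟨H, l, T, T', hl, hT, hH, ?_⟩
  rcases hreg with h1 | h1
  · exact Or.inl (Pool.Agent.TH214.RM.Reg.crit h1)
  · exact Or.inr ⟨h1.two, h1.depth, h1.nondegenerate,
      fun s hs Q hQ hC hd => Or.inr (h1.regular s hs Q hQ hC hd)⟩

theorem model {n d : ℕ} (hd : 2 ≤ d) (G : MvPolynomial (Fin (n + 3)) ℚ) (hG : G.IsHomogeneous d)
    (hsm : IsSmooth G) (hloc : Pool.Agent.U41.OD.LocNode ℤ G) : HypersurfaceHasModel G := by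
  intro B _ _ π hπ hker ℬ _ hℬ V hV
  obtain ⟨Y, hi, hn, hr, hp, hf, hg⟩ :=
    Pool.Agent.U41.PH.model_int Pool.Agent.U41.OD.gm (n := n + 1) (by omega) G d hd hG hsm hloc
      π hπ hker ℬ hℬ V hV
  exact ⟨Y, hi, ⟨hn, hr⟩, hp, hf, hg⟩

theorem finite_bounded {n d : ℕ} (H : ℕ) :
    {a : Exponent n d → ℤ | ∀ α, |a α| ≤ H}.Finite := by
  have := Pool.Agent.U41.PH.finite_exps n d
  refine Set.Finite.subset (Set.Finite.pi' fun _ : Exponent n d =>
    Set.finite_Icc (-(H : ℤ)) (H : ℤ)) fun a ha α => ?_
  exact Set.mem_Icc.2 (abs_le.1 (ha α))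

theorem result :
    (∀ n d : ℕ, 3 ≤ d → ∃ δ : ℝ, 0 < δ ∧ ∃ H₀ : ℕ, ∀ H ≥ H₀,
      δ * (Set.ncard {a : Exponent (n + 3) d → ℤ | ∀ α, |a α| ≤ H} : ℝ) ≤
        Set.ncard {a : Exponent (n + 3) d → ℤ | (∀ α, |a α| ≤ H) ∧ IsSmooth (form a) ∧
          HypersurfaceHasModel (form a)}) ∧
    (∀ n d : ℕ, 3 ≤ d → ∀ ε : ℝ, 0 < ε → ∃ Y₀ : ℕ, ∀ Y ≥ Y₀,
      ∀ (M : ℕ) (b : Exponent (n + 3) d → ℤ), M ≠ 0 →
      (∀ p : ℕ, p.Prime → p ∣ M → p ≤ Y) →
      (∀ (y : Exponent (n + 3) d → ℤ) (p : ℕ), p.Prime → p ≤ Y →
        HasGoodEquationAt p (form fun α => b α + M * y α)) →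
      ∃ H₀ : ℕ, ∀ H ≥ H₀,
        (1 - ε) * (Set.ncard {y : Exponent (n + 3) d → ℤ | ∀ α, |y α| ≤ H} : ℝ) ≤
          Set.ncard {y : Exponent (n + 3) d → ℤ | (∀ α, |y α| ≤ H) ∧
            IsSmooth (form fun α => b α + M * y α) ∧
            HypersurfaceHasModel (form fun α => b α + M * y α)}) := by
  refine ⟨fun n d hd => ?_, fun n d hd ε hε => ?_⟩
  · obtain ⟨δ, hδ, H₀, h⟩ := Pool.Agent.U41.PH.proportion Pool.Agent.U41.PH.fin (n + 1) d hd
    refine ⟨δ, hδ, H₀, fun H hH => (h H hH).trans ?_⟩
    rw [Nat.cast_le]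
    refine Set.ncard_le_ncard ?_ ((finite_bounded H).subset fun a ha => ha.1)
    intro a ha
    exact ⟨ha.1, ha.2.1, model (n := n) (by omega) _ (Pool.Agent.U41.PH.allForm_hom a) ha.2.1 ha.2.2⟩
  · obtain ⟨Y₀, h⟩ := Pool.Agent.U41.PH.str_all (n + 1) d hd ε hε
    refine ⟨Y₀, fun Y hY M b hM hMY hloc => ?_⟩
    obtain ⟨H₀, h1⟩ := h Y hY M b hM hMY fun y p hp hpY => (hloc y p hp hpY).locAt
    refine ⟨H₀, fun H hH => (h1 H hH).trans ?_⟩
    rw [Nat.cast_le]
    refine Set.ncard_le_ncard ?_ ((finite_bounded H).subset fun a ha => ha.1)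
    intro y hy
    exact ⟨hy.1, hy.2.1, model (n := n) (by omega) _
      (Pool.Agent.U41.PH.allForm_hom (fun α => b α + M * y α)) hy.2.1 hy.2.2⟩

end Pool.Agent.Results.MP_602153_ag.PositiveProportion
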